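import Mathlib

set_option autoImplicit false

namespace Pool.Agent.Results.MP_93dabc_an.NoSel

open Set MeasureTheory Cardinal Function

abbrev W : Type := (ℵ₁ : Cardinal.{0}).ord.ToType

lemma cIio (t : W) : (Iio t).Countable := by
  rw [← le_aleph0_iff_set_countable, ← Order.lt_succ_iff, succ_aleph0]
  exact mk_Iio_toType_ord_lt t

lemma unc : ¬ (univ : Set W).Countable := by
  rw [← le_aleph0_iff_set_countable, mk_univ, mk_ord_toType, not_le]
  exact aleph0_lt_aleph_one

lemma bound {S : Set W} (hS : S.Countable) : ∃ t, ∀ s ∈ S, s < t := by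
  by_contra! h
  refine unc ((hS.biUnion fun s _ => (cIio s).insert s).mono fun t _ => ?_)
  obtain ⟨s, hs, e⟩ := h t
  exact mem_biUnion hs e.eq_or_lt

abbrev mW : MeasurableSpace W where
  MeasurableSet' s := s.Countable ∨ sᶜ.Countable
  measurableSet_empty := .inl countable_empty
  measurableSet_compl s h := by simpa [or_comm] using h
  measurableSet_iUnion f h := by
    by_cases a : ∀ i, (f i).Countable
    · exact .inl (countable_iUnion a)
    · obtain ⟨i, hi⟩ := not_forall.1 a
      exact .inr (((h i).resolve_left hi).mono (compl_subset_compl.2 (subset_iUnion f i)))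

open Classical in
noncomputable def μW : @Measure W mW := @Measure.ofMeasurable W mW
  (fun s _ => if s.Countable then 0 else 1) (by simp) fun f h d => by
    by_cases a : ∀ i, (f i).Countable
    · simp [a]
    · obtain ⟨i, hi⟩ := not_forall.1 a
      rw [tsum_eq_single i fun j hj => if_pos (((h i).resolve_left hi).mono
        (d hj).subset_compl_right), if_neg hi, if_neg fun c => hi (c.mono (subset_iUnion f i))]

abbrev X : Type := lp (fun _ : W => ℝ) 1

lemma hs (x : X) : HasSum (fun a => ‖x a‖) ‖x‖ := by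
  simpa using lp.hasSum_norm (p := 1) (by norm_num) x

lemma func (S : Set W) : ∃ φ : X →L[ℝ] ℝ, ∀ x, φ x = ∑' a, S.indicator x a := by
  have b : ∀ (x : X) a, ‖S.indicator x a‖ ≤ ‖x a‖ := fun x => norm_indicator_le_norm_self _
  have s : ∀ x : X, Summable (S.indicator x) := fun x => .of_norm_bounded (hs x).summable (b x)
  refine ⟨LinearMap.mkContinuous ⟨⟨fun x => ∑' a, S.indicator x a, fun x y => ?_⟩, fun c x => ?_⟩ 1
    fun x => ?_, fun _ => rfl⟩
  · rw [← (s x).tsum_add (s y)]
    exact tsum_congr fun a => by by_cases h : a ∈ S <;> simp [h]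
  · rw [RingHom.id_apply, smul_eq_mul, ← tsum_mul_left]
    exact tsum_congr fun a => by by_cases h : a ∈ S <;> simp [h]
  · rw [one_mul]
    exact (s x).hasSum.norm_le_of_bounded (hs x) (b x)

theorem result : ∃ (Ω : Type) (_ : MeasurableSpace Ω) (μ : Measure Ω), IsProbabilityMeasure μ ∧
    μ.IsComplete ∧ ∃ (X : Type) (_ : NormedAddCommGroup X) (_ : NormedSpace ℝ X), CompleteSpace X ∧
    ∃ F : Ω → Set X, (∀ t, (F t).Nonempty ∧ Convex ℝ (F t) ∧ IsClosed (F t) ∧
      F t ⊆ Metric.closedBall 0 1) ∧ (∀ G : Set X, MeasurableSet {t | (F t ∩ G).Nonempty}) ∧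
      ∀ f : Ω → X, (∀ t, f t ∈ F t) → ∃ φ : X →L[ℝ] ℝ, ¬ Measurable (φ ∘ f) := by
  classical
  letI := mW
  obtain ⟨σ, hσ⟩ := func univ
  simp only [indicator_univ] at hσ
  refine ⟨W, mW, μW, ⟨by rw [μW, Measure.ofMeasurable_apply _ .univ, if_neg unc]⟩, ⟨fun s h => ?_⟩,
    X, inferInstance, inferInstance, inferInstance,
    fun t => Metric.closedBall 0 1 ∩ (σ ⁻¹' {1} ∩ ⋂ s ∈ Iio t, lp.evalCLM ℝ _ 1 s ⁻¹' {0}),
    fun t => ⟨⟨lp.single 1 t 1, by simp [lp.norm_single], ?_, ?_⟩, ?_, ?_, inter_subset_left⟩,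
    fun G => ?_, fun f hf => ?_⟩
  · obtain ⟨t, st, mt, ht⟩ := exists_measurable_superset_of_null h
    rw [μW, Measure.ofMeasurable_apply _ mt] at ht
    exact .inl (Countable.mono st (by simpa using ht))
  · rw [mem_preimage, hσ, tsum_eq_single t fun a ha => by simp [lp.single_apply, ha]]
    simp
  · exact mem_iInter₂.2 fun s hs => by
      change lp.single (E := fun _ : W => ℝ) 1 t 1 s = 0
      simp [lp.single_apply, (mem_Iio.1 hs).ne]
  · exact (convex_closedBall _ _).inter (((convex_singleton _).linear_preimage σ.toLinearMap).inter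
      (convex_iInter₂ fun s _ => (convex_singleton _).linear_preimage
        (lp.evalCLM ℝ (fun _ : W => ℝ) 1 s).toLinearMap))
  · exact Metric.isClosed_closedBall.inter ((isClosed_singleton.preimage σ.continuous).inter
      (isClosed_biInter fun s _ => isClosed_singleton.preimage (ContinuousLinearMap.continuous _)))
  · by_cases h : ∀ t, (Metric.closedBall 0 1 ∩ (σ ⁻¹' {1} ∩
      ⋂ s ∈ Iio t, lp.evalCLM ℝ _ 1 s ⁻¹' {0}) ∩ G).Nonempty
    · exact .inr (countable_empty.mono fun t ht => ht (h t))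
    obtain ⟨t, ht⟩ := not_forall.1 h
    refine .inl ((cIio t).mono fun u ⟨x, hx, hG⟩ => mem_Iio.2 <| not_le.1 fun tu => ht ⟨x, ⟨hx.1, hx.2.1, ?_⟩, hG⟩)
    exact biInter_subset_biInter_left (Iio_subset_Iio tu) hx.2.2
  have f1 : ∀ t, ∑' a, f t a = 1 := fun t => (hσ _).symm.trans (hf t).2.1
  have f0 : ∀ t s, s < t → f t s = 0 := fun t s h => mem_iInter₂.1 (hf t).2.2 s h
  have fc : ∀ t, (support (f t)).Countable := fun t => (hs (f t)).summable.of_norm.countable_support
  obtain ⟨A, hA⟩ := zorn_subset {A : Set W | A.Pairwise (Disjoint on fun t => support (f t))}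
    fun c hc h => ⟨⋃₀ c, (pairwise_sUnion h.directedOn).2 hc, fun s => subset_sUnion_of_mem⟩
  have uA : ¬ A.Countable := fun cA => by
    obtain ⟨t, ht⟩ := bound (cA.union (cA.biUnion fun s _ => fc s))
    refine (ht t (.inl (hA.le_of_ge (y := insert t A) ?_ (subset_insert ..) (mem_insert ..)))).false
    refine (pairwise_insert_of_symm (r := Disjoint on fun t => support (f t))).2
      ⟨hA.prop, fun s hs _ => disjoint_left.2 fun a a1 a2 => a1 (f0 t a (ht a (.inr ?_)))⟩
    exact mem_biUnion hs a2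
  have iA : ℵ₀ ≤ #A := (not_le.1 (mt le_aleph0_iff_set_countable.1 uA)).le
  obtain ⟨e⟩ : Nonempty (A ⊕ A ≃ A) := Cardinal.eq.1 (by simpa using add_eq_self iA)
  have u : ∀ g : A → A ⊕ A, Injective g → ¬ (range fun a => (e (g a) : W)).Countable := fun g hg c =>
    uA (countable_coe_iff.1 ((countable_coe_iff.2 c).of_equiv _
      (Equiv.ofInjective _ (Subtype.val_injective.comp (e.injective.comp hg))).symm))
  obtain ⟨φ, hφ⟩ := func (⋃ a, support (f (e (.inl a))))
  refine ⟨φ, fun m => (m (measurableSet_singleton 1)).elim (fun c => u _ Sum.inl_injective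
    (c.mono ?_)) fun c => u _ Sum.inr_injective (c.mono ?_)⟩
  · rintro _ ⟨a, rfl⟩
    rw [mem_preimage, comp_apply, hφ, indicator_eq_self.2 (subset_iUnion
      (fun a => support (f (e (.inl a)))) a)]
    exact f1 _
  · rintro _ ⟨a, rfl⟩
    rw [mem_compl_iff, mem_preimage, comp_apply, hφ, indicator_eq_zero.2 (disjoint_iUnion_right.2
      fun b => hA.prop (e _).2 (e _).2 fun h => by simpa using Subtype.ext h)]
    simp

end Pool.Agent.Results.MP_93dabc_an.NoSel
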